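import Pool.Agent.WR2.StmtsC

/-!
WR2, row CMP: comparison in the mean.
-/

namespace Pool.Agent.WR2.H69

open Pool.Agent.WIR
open scoped BigOperators

/-- projection of a natural number. -/
lemma pj_nat (r l m : ℕ) (h : r ≤ l) :
    pj r l ((m : ℕ) : ZMod (3 ^ l)) = ((m : ℕ) : ZMod (3 ^ r)) := by
  unfold pj
  rw [ZMod.val_natCast]
  have hd : (3 ^ r) ∣ (3 ^ l) := pow_dvd_pow 3 h
  rw [ZMod.natCast_eq_natCast_iff]
  exact (Nat.mod_modEq m (3 ^ l)).of_dvd hd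

/-- periodicity of the casts. -/
lemma cast_add_pow (r K m : ℕ) (h : r ≤ K) :
    ((m + 3 ^ K : ℕ) : ZMod (3 ^ r)) = ((m : ℕ) : ZMod (3 ^ r)) := by
  obtain ⟨d, rfl⟩ := Nat.exists_eq_add_of_le h
  rw [Nat.cast_add, pow_add, Nat.cast_mul, ZMod.natCast_self, zero_mul, add_zero]

/-- the difference of the counts at the levels `l2` and `r`. -/
noncomputable def FF (l1 y r l2 : ℕ) (z : ZMod (3 ^ l2)) : ℝ :=
  (3 ^ l2 / 2 ^ M2 l1 y l2 : ℝ) * |(cnt (M2 l1 y l2) {l2} l2 z : ℝ)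
    - 3 ^ r / 3 ^ l2 * (cnt (M2 l1 y l2) {l2} r (pj r l2 z) : ℝ)|

/-- the weighted number of bad words. -/
noncomputable def BB (K r : ℕ) (z : ZMod (3 ^ r)) : ℝ := (3 ^ r / 2 ^ K : ℝ) * (bz K r z : ℝ)

lemma FF_nonneg (l1 y r l2 : ℕ) (z : ZMod (3 ^ l2)) : 0 ≤ FF l1 y r l2 z :=
  mul_nonneg (by positivity) (abs_nonneg _)

lemma BB_nonneg (K r : ℕ) (z : ZMod (3 ^ r)) : 0 ≤ BB K r z := by
  unfold BB
  positivity

/-- **Row CMP**. -/
theorem cmp (hava : AvaStmt) (_hwrb : WrbStmt) (hbwd : BwdStmt) (hgwd : GwdStmt)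
    (htel : TelStmt) (hcod : CodStmt) : CmpStmt := by
  intro A
  obtain ⟨C, hC1, hC⟩ := htel A
  obtain ⟨hava1, hava2, -, -⟩ := hava
  obtain ⟨hbwd1, hbwd2⟩ := hbwd
  refine ⟨8 * C, by linarith, ?_⟩
  intro l1 y r hy hr
  set K : ℕ := 7 * (y + 1) with hK
  have hrK : r ≤ K := by omega
  have hR : ∀ l2 ∈ RS l1 y r K, l2 ≤ K ∧ r ≤ l2 ∧ M2 l1 y l2 ≤ K ∧ 8 * l2 ≤ 5 * M2 l1 y l2 := by
    intro l2 h
    unfold RS at h
    rw [Finset.mem_filter, Finset.mem_range] at h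
    exact ⟨by omega, h.2.1, h.2.2.1, h.2.2.2⟩
  have hwr : ∀ m : ℕ, wr r (m + 3 ^ K) = wr r m := by
    intro m
    unfold wr
    rw [cast_add_pow r K m hrK]
  have hgf : ∀ m : ℕ, 0 < m → gf l1 y r (m + 3 ^ K) = gf l1 y r m := by
    intro m hm
    unfold gf
    apply Finset.sum_congr rfl
    intro l2 hl2
    have h := hR l2 hl2
    rw [hcod _ _ _ (Nat.add_pos_left hm _), hcod _ _ _ hm, cast_add_pow l2 K m h.1]
  refine ⟨?_, ?_⟩
  · intro m hm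
    show max 0 (wr r (m + 3 ^ K) - gf l1 y r (m + 3 ^ K)) = max 0 (wr r m - gf l1 y r m)
    rw [hwr m, hgf m hm]
  · -- the functions
    have hpt : ∀ m : ℕ, 0 < m → max 0 (wr r m - gf l1 y r m)
        ≤ ∑ l2 ∈ RS l1 y r K, FF l1 y r l2 ((m : ℕ) : ZMod (3 ^ l2))
          + BB K r ((m : ℕ) : ZMod (3 ^ r)) := by
      intro m hm
      have hB0 : 0 ≤ BB K r ((m : ℕ) : ZMod (3 ^ r)) := BB_nonneg _ _ _
      have hS0 : 0 ≤ ∑ l2 ∈ RS l1 y r K, FF l1 y r l2 ((m : ℕ) : ZMod (3 ^ l2)) :=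
        Finset.sum_nonneg (fun l2 _ => FF_nonneg _ _ _ _ _)
      refine max_le ?_ ?_
      · exact add_nonneg hS0 hB0
      · have h1 := hgwd l1 y r ((m : ℕ) : ZMod (3 ^ r)) hy hr
        have h2 : wr r m = W r ((m : ℕ) : ZMod (3 ^ r)) := rfl
        have h3 : (∑ l2 ∈ RS l1 y r K, (3 ^ r / 2 ^ M2 l1 y l2 : ℝ)
            * (cnt (M2 l1 y l2) {l2} r ((m : ℕ) : ZMod (3 ^ r)) : ℝ)) - gf l1 y r m
            ≤ ∑ l2 ∈ RS l1 y r K, FF l1 y r l2 ((m : ℕ) : ZMod (3 ^ l2)) := by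
          unfold gf
          rw [← Finset.sum_sub_distrib]
          apply Finset.sum_le_sum
          intro l2 hl2
          have h := hR l2 hl2
          unfold FF
          rw [pj_nat r l2 m h.2.1, hcod _ _ _ hm]
          have h5 : (3 ^ r / 2 ^ M2 l1 y l2 : ℝ)
              * (cnt (M2 l1 y l2) {l2} r ((m : ℕ) : ZMod (3 ^ r)) : ℝ)
              - (3 ^ l2 / 2 ^ M2 l1 y l2 : ℝ)
              * (cnt (M2 l1 y l2) {l2} l2 ((m : ℕ) : ZMod (3 ^ l2)) : ℝ)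
              = (3 ^ l2 / 2 ^ M2 l1 y l2 : ℝ) *
                (-((cnt (M2 l1 y l2) {l2} l2 ((m : ℕ) : ZMod (3 ^ l2)) : ℝ)
                - 3 ^ r / 3 ^ l2 * (cnt (M2 l1 y l2) {l2} r ((m : ℕ) : ZMod (3 ^ r)) : ℝ))) := by
            field_simp
            ring
          rw [h5]
          exact mul_le_mul_of_nonneg_left (neg_le_abs _) (by positivity)
        have h4 : BB K r ((m : ℕ) : ZMod (3 ^ r))
            = (3 ^ r / 2 ^ K : ℝ) * (bz K r ((m : ℕ) : ZMod (3 ^ r)) : ℝ) := rfl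
        rw [h2, h4]
        linarith
    -- averages
    have h3K : (0 : ℝ) < 3 ^ K := by positivity
    have hFav : ∀ l2 ∈ RS l1 y r K, (∑ m ∈ Finset.Icc 1 (3 ^ K), FF l1 y r l2 ((m : ℕ) : ZMod (3 ^ l2)))
        / 3 ^ K ≤ C / ((r : ℝ) + 1) ^ A := by
      intro l2 hl2
      have h := hR l2 hl2
      have e1 := (hava2 l2 (FF l1 y r l2)).1
      have e2 := (hava2 l2 (FF l1 y r l2)).2
      have e3 := (hava1 l2 K _ e1 h.1).2
      have e4 : (∑ m ∈ Finset.Icc 1 (3 ^ K), FF l1 y r l2 ((m : ℕ) : ZMod (3 ^ l2))) / 3 ^ K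
          = (∑ z, FF l1 y r l2 z) / 3 ^ l2 := by
        rw [← e2, ← e3]
        rfl
      rw [e4]
      have e5 : ∑ z, FF l1 y r l2 z = (3 ^ l2 / 2 ^ M2 l1 y l2 : ℝ) *
          ∑ z : ZMod (3 ^ l2), |(cnt (M2 l1 y l2) {l2} l2 z : ℝ)
        - 3 ^ r / 3 ^ l2 * (cnt (M2 l1 y l2) {l2} r (pj r l2 z) : ℝ)| := by
        rw [Finset.mul_sum]
        rfl
      rw [e5]
      have e6 := hC r l2 (M2 l1 y l2) h.2.1 h.2.2.2
      have e7 : (3 ^ l2 / 2 ^ M2 l1 y l2 : ℝ) *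
          (∑ z : ZMod (3 ^ l2), |(cnt (M2 l1 y l2) {l2} l2 z : ℝ)
        - 3 ^ r / 3 ^ l2 * (cnt (M2 l1 y l2) {l2} r (pj r l2 z) : ℝ)|)
        ≤ (3 ^ l2 / 2 ^ M2 l1 y l2 : ℝ) * (C / ((r : ℝ) + 1) ^ A * 2 ^ M2 l1 y l2) :=
        mul_le_mul_of_nonneg_left e6 (by positivity)
      have e8 : (3 ^ l2 / 2 ^ M2 l1 y l2 : ℝ) * (C / ((r : ℝ) + 1) ^ A * 2 ^ M2 l1 y l2)
          = C / ((r : ℝ) + 1) ^ A * 3 ^ l2 := by
        field_simp
      rw [e8] at e7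
      rw [div_le_iff₀ (by positivity)]
      exact e7
    have hBav : (∑ m ∈ Finset.Icc 1 (3 ^ K), BB K r ((m : ℕ) : ZMod (3 ^ r))) / 3 ^ K
        ≤ Real.exp (-((r : ℝ) / 6)) + Real.exp (-((y : ℝ) / 120)) := by
      have e1 := (hava2 r (BB K r)).1
      have e2 := (hava2 r (BB K r)).2
      have e3 := (hava1 r K _ e1 hrK).2
      have e4 : (∑ m ∈ Finset.Icc 1 (3 ^ K), BB K r ((m : ℕ) : ZMod (3 ^ r))) / 3 ^ K
          = (∑ z, BB K r z) / 3 ^ r := by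
        rw [← e2, ← e3]
        rfl
      rw [e4]
      have e5 : ∑ z, BB K r z = (3 ^ r / 2 ^ K : ℝ) * ((bd K r).card : ℝ) := by
        rw [← hbwd2 r K, Nat.cast_sum, Finset.mul_sum]
        rfl
      rw [e5]
      have e6 := hbwd1 r K (by omega) (by omega)
      have e7 : (3 ^ r / 2 ^ K : ℝ) * ((bd K r).card : ℝ) / 3 ^ r
          = ((bd K r).card : ℝ) / 2 ^ K := by
        field_simp
      rw [e7, div_le_iff₀ (by positivity)]
      have e8 : Real.exp (-((K : ℝ) / 800)) ≤ Real.exp (-((y : ℝ) / 120)) := by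
        apply Real.exp_le_exp.mpr
        have : (K : ℝ) = 7 * ((y : ℝ) + 1) := by rw [hK]; push_cast; ring
        rw [this]
        have hy0 : (0 : ℝ) ≤ y := Nat.cast_nonneg y
        linarith
      calc ((bd K r).card : ℝ)
          ≤ 2 ^ K * (Real.exp (-((r : ℝ) / 6)) + Real.exp (-((K : ℝ) / 800))) := e6
        _ ≤ 2 ^ K * (Real.exp (-((r : ℝ) / 6)) + Real.exp (-((y : ℝ) / 120))) :=
            mul_le_mul_of_nonneg_left (by linarith) (by positivity)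
        _ = _ := by ring
    have hcard : ((RS l1 y r K).card : ℝ) ≤ 8 * ((y : ℝ) + 1) := by
      have h1 : (RS l1 y r K).card ≤ K + 1 := by
        unfold RS
        calc _ ≤ (Finset.range (K + 1)).card := Finset.card_filter_le _ _
          _ = K + 1 := Finset.card_range _
      have h2 : ((RS l1 y r K).card : ℝ) ≤ (K : ℝ) + 1 := by exact_mod_cast h1
      have h3 : (K : ℝ) = 7 * ((y : ℝ) + 1) := by rw [hK]; push_cast; ring
      have hy0 : (0 : ℝ) ≤ y := Nat.cast_nonneg y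
      linarith
    have hmain : av K (fun m => max 0 (wr r m - gf l1 y r m))
        ≤ ∑ l2 ∈ RS l1 y r K, (∑ m ∈ Finset.Icc 1 (3 ^ K), FF l1 y r l2 ((m : ℕ) : ZMod (3 ^ l2))) / 3 ^ K
          + (∑ m ∈ Finset.Icc 1 (3 ^ K), BB K r ((m : ℕ) : ZMod (3 ^ r))) / 3 ^ K := by
      unfold av
      rw [← Finset.sum_div, ← add_div, Finset.sum_comm, ← Finset.sum_add_distrib]
      apply div_le_div_of_nonneg_right _ h3K.le
      apply Finset.sum_le_sum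
      intro m hm
      exact hpt m (by rw [Finset.mem_Icc] at hm; omega)
    have hCr : 0 ≤ C / ((r : ℝ) + 1) ^ A := by positivity
    have hsum : ∑ l2 ∈ RS l1 y r K,
        (∑ m ∈ Finset.Icc 1 (3 ^ K), FF l1 y r l2 ((m : ℕ) : ZMod (3 ^ l2))) / 3 ^ K
        ≤ 8 * C * (y + 1) / ((r : ℝ) + 1) ^ A := by
      calc _ ≤ ∑ _l2 ∈ RS l1 y r K, C / ((r : ℝ) + 1) ^ A := Finset.sum_le_sum hFav
        _ = ((RS l1 y r K).card : ℝ) * (C / ((r : ℝ) + 1) ^ A) := by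
            rw [Finset.sum_const, nsmul_eq_mul]
        _ ≤ 8 * ((y : ℝ) + 1) * (C / ((r : ℝ) + 1) ^ A) :=
            mul_le_mul_of_nonneg_right hcard hCr
        _ = _ := by ring
    linarith

end Pool.Agent.WR2.H69
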